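import Mathlib

namespace Pool.Agent.Results.MP_f8e91b_al.NoDichotomy

universe u

variable {F : Type u} [Field F]

/-- A partial matrix is given by its pattern of knowns `J` and a matrix `a` whose entries at
positions of `J` are the specified entries. `B` is a completion if it agrees with `a` on `J`. -/
def IsCompletion {m n : Type} (J : Set (m × n)) (a B : Matrix m n F) : Prop :=
  ∀ i j, (i, j) ∈ J → B i j = a i j

/-- Minimal rank. -/
noncomputable def mr {m n : Type} [Fintype n] (J : Set (m × n)) (a : Matrix m n F) : ℕ :=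
  sInf {r | ∃ B, IsCompletion J a B ∧ B.rank = r}

/-- Triangular patterns. -/
def IsTriangular {m n : Type} (T : Set (m × n)) : Prop :=
  ∀ i j k l, (i, j) ∈ T → (k, l) ∈ T → (i, l) ∈ T ∨ (k, j) ∈ T

/-- Maximal triangular subpatterns of `J`. -/
def IsMaxTri {m n : Type} (J T : Set (m × n)) : Prop :=
  T ⊆ J ∧ IsTriangular T ∧ ¬ ∃ S, IsTriangular S ∧ T ⊂ S ∧ S ⊆ J

/-- Triangular minimal rank. -/
noncomputable def tmr {m n : Type} [Fintype n] (J : Set (m × n)) (a : Matrix m n F) : ℕ :=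
  sSup {r | ∃ T, IsMaxTri J T ∧ mr T a = r}

/-- Pattern of knowns of `A ⊗ I_b`. -/
def blockPattern {m n : Type} (J : Set (m × n)) (b : ℕ) : Set ((m × Fin b) × (n × Fin b)) :=
  {p | (p.1.1, p.2.1) ∈ J}

/-- Known entries of `A ⊗ I_b`: the block `(i, j)` is `a i j • I_b`. -/
def blockVal {m n : Type} (a : Matrix m n F) (b : ℕ) : Matrix (m × Fin b) (n × Fin b) F :=
  fun p q => if p.2 = q.2 then a p.1 q.1 else 0

/-- Fractional minimal rank. -/
noncomputable def fmr {m n : Type} [Fintype n] (J : Set (m × n)) (a : Matrix m n F) : ℝ :=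
  ⨅ b : ℕ+, (mr (blockPattern J b) (blockVal a b) : ℝ) / ((b : ℕ) : ℝ)

def known (i j : Fin 15) : Bool :=
  (decide (10 ≤ i.val) && decide (10 ≤ j.val)) ||
  (decide (i.val < 10) && decide (j.val < 10) &&
    !(decide (i.val / 5 = j.val / 5) &&
      (decide ((i.val + 1) % 5 = j.val % 5) || decide ((j.val + 1) % 5 = i.val % 5))))

def J0 : Set (Fin 15 × Fin 15) := {p | known p.1 p.2 = true}

def T0 : Set (Fin 15 × Fin 15) := {p | 10 ≤ p.1.val ∧ 10 ≤ p.2.val}

theorem mr_ge {m n : Type} [Fintype n] (J : Set (m × n)) (a : Matrix m n F) (k : ℕ)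
    (h : ∀ B, IsCompletion J a B → k ≤ B.rank) : k ≤ mr J a := by
  unfold mr
  have hne : {r | ∃ B, IsCompletion J a B ∧ B.rank = r}.Nonempty :=
    ⟨a.rank, a, fun _ _ _ => rfl, rfl⟩
  apply le_csInf hne
  rintro r ⟨B, hB, rfl⟩
  exact h B hB

theorem mr_le {m n : Type} [Fintype n] (J : Set (m × n)) (a B : Matrix m n F)
    (h : IsCompletion J a B) : mr J a ≤ B.rank :=
  Nat.sInf_le ⟨B, h, rfl⟩

theorem T0_max : IsMaxTri J0 T0 := by
  refine ⟨?_, ?_, ?_⟩
  · rintro ⟨i, j⟩ ⟨h1, h2⟩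
    simp only [J0, Set.mem_ofPred_eq, known] at *
    simp [h1, h2]
  · intro i j k l h1 h2
    exact Or.inl ⟨h1.1, h2.2⟩
  · rintro ⟨S, hS, hT, hJ⟩
    obtain ⟨⟨k, l⟩, hkl, hn⟩ := Set.exists_of_ssubset hT
    have h0 : ((10 : Fin 15), (10 : Fin 15)) ∈ S := hT.1 ⟨by decide, by decide⟩
    have a1 : known k l = true := hJ hkl
    have key : ∀ k l : Fin 15, known k l = true → (known 10 l = true ∨ known k 10 = true) →
        10 ≤ k.val ∧ 10 ≤ l.val := by decide +kernel
    apply hn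
    apply key k l a1
    rcases hS 10 10 k l h0 hkl with h | h
    · exact Or.inl (hJ h)
    · exact Or.inr (hJ h)

theorem tmr_ge : 5 ≤ tmr J0 (1 : Matrix (Fin 15) (Fin 15) F) := by
  have hb : BddAbove {r | ∃ T, IsMaxTri J0 T ∧ mr T (1 : Matrix (Fin 15) (Fin 15) F) = r} := by
    refine ⟨15, ?_⟩
    rintro r ⟨T, -, rfl⟩
    exact (mr_le T 1 1 (fun _ _ _ => rfl)).trans (Matrix.rank_le_width _)
  refine le_trans ?_ (le_csSup hb ⟨T0, T0_max, rfl⟩)
  apply mr_ge
  intro B hB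
  let e : Fin 5 → Fin 15 := fun i => ⟨10 + i.val, by omega⟩
  have hsub : B.submatrix e e = 1 := by
    ext i j
    rw [Matrix.submatrix_apply, hB (e i) (e j) ⟨by simp [e], by simp [e]⟩]
    simp [Matrix.one_apply, e, Fin.ext_iff]
  have := Matrix.rank_submatrix_le B e e
  rwa [hsub, Matrix.rank_one, Fintype.card_fin] at this

def lab (p : Fin 15 × Fin 2) : Fin 10 :=
  if p.1.val < 10 then ⟨(5 * (p.1.val / 5) + (p.1.val + 4 * p.2.val) % 5) % 10, Nat.mod_lt _ (by norm_num)⟩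
  else ⟨(2 * (p.1.val - 10) + p.2.val) % 10, Nat.mod_lt _ (by norm_num)⟩

theorem lab_ok : ∀ p q : Fin 15 × Fin 2, known p.1 q.1 = true → (lab p = lab q ↔ p = q) := by
  decide +kernel

theorem mr2_le : mr (blockPattern J0 2) (blockVal (1 : Matrix (Fin 15) (Fin 15) F) 2) ≤ 10 := by
  let P : Matrix (Fin 15 × Fin 2) (Fin 10) F := fun p e => if lab p = e then 1 else 0
  have hc : IsCompletion (blockPattern J0 2) (blockVal (1 : Matrix (Fin 15) (Fin 15) F) 2)
      (P * P.transpose) := by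
    intro p q h
    have h' := lab_ok p q h
    have e1 : (P * P.transpose) p q = if lab p = lab q then 1 else 0 := by
      simp only [Matrix.mul_apply, Matrix.transpose_apply, P]
      rw [Finset.sum_eq_single (lab p)]
      · simp [eq_comm]
      · intro b _ hb; simp [Ne.symm hb]
      · simp
    rw [e1]
    by_cases hpq : p = q
    · subst hpq; simp [blockVal]
    · rw [if_neg (fun h => hpq (h'.1 h))]
      unfold blockVal
      split_ifs with h2
      · rw [Matrix.one_apply_ne]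
        intro h1
        exact hpq (Prod.ext h1 h2)
      · rfl
  refine (mr_le _ _ _ hc).trans ((Matrix.rank_mul_le_left _ _).trans ?_)
  exact (Matrix.rank_le_card_width P).trans (by simp)

theorem fmr_le : fmr J0 (1 : Matrix (Fin 15) (Fin 15) F) ≤ 5 := by
  unfold fmr
  refine le_trans (ciInf_le ⟨0, ?_⟩ (2 : ℕ+)) ?_
  · rintro _ ⟨b, rfl⟩; positivity
  · have h : ((mr (blockPattern J0 2) (blockVal (1 : Matrix (Fin 15) (Fin 15) F) 2) : ℕ) : ℝ) ≤ 10 := by
      exact_mod_cast mr2_le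
    show ((mr (blockPattern J0 2) (blockVal (1 : Matrix (Fin 15) (Fin 15) F) 2) : ℕ) : ℝ) / ((2 : ℕ) : ℝ) ≤ 5
    push_cast
    linarith

theorem cyc (M : Matrix (Fin 5) (Fin 5) F) (hd : ∀ i, M i i = 1)
    (hz : ∀ i, M i (i + 2) = 0) (hz' : ∀ i, M (i + 2) i = 0) :
    ∃ r : Fin 3 → Fin 5, (M.submatrix r r).det ≠ 0 := by
  by_contra hn
  push Not at hn
  have a1 := hn ![0, 1, 2]
  have a2 := hn ![0, 1, 3]
  have a3 := hn ![1, 2, 4]
  have z02 : M 0 2 = 0 := hz 0
  have z20 : M 2 0 = 0 := hz' 0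
  have z13 : M 1 3 = 0 := hz 1
  have z31 : M 3 1 = 0 := hz' 1
  have z24 : M 2 4 = 0 := hz 2
  have z42 : M 4 2 = 0 := hz' 2
  have z30 : M 3 0 = 0 := hz 3
  have z03 : M 0 3 = 0 := hz' 3
  have z41 : M 4 1 = 0 := hz 4
  have z14 : M 1 4 = 0 := hz' 4
  simp [Matrix.det_fin_three, hd, z02, z20, z13, z31, z24, z42, z30, z03, z41, z14] at a1 a2 a3
  have : (1 : F) = 0 := by linear_combination a2 + a3 - a1
  exact one_ne_zero this

def e1 (i : Fin 5) : Fin 15 := ⟨i.val, by omega⟩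
def e2 (i : Fin 5) : Fin 15 := ⟨5 + i.val, by omega⟩

theorem mr_ge6 : 6 ≤ mr J0 (1 : Matrix (Fin 15) (Fin 15) F) := by
  apply mr_ge
  intro B hB
  have diag : ∀ i, B i i = 1 := by
    intro i
    have : ∀ i : Fin 15, known i i = true := by decide +kernel
    rw [hB i i (this i), Matrix.one_apply_eq]
  have off : ∀ i j, known i j = true → i ≠ j → B i j = 0 := by
    intro i j h hij
    rw [hB i j h, Matrix.one_apply_ne hij]
  obtain ⟨r, hr⟩ := cyc (B.submatrix e1 e1) (fun i => diag _)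
    (fun i => off _ _ (by revert i; decide +kernel) (by revert i; decide +kernel))
    (fun i => off _ _ (by revert i; decide +kernel) (by revert i; decide +kernel))
  obtain ⟨s, hs⟩ := cyc (B.submatrix e2 e2) (fun i => diag _)
    (fun i => off _ _ (by revert i; decide +kernel) (by revert i; decide +kernel))
    (fun i => off _ _ (by revert i; decide +kernel) (by revert i; decide +kernel))
  let e : Fin 3 ⊕ Fin 3 → Fin 15 := Sum.elim (e1 ∘ r) (e2 ∘ s)
  have c1 : ∀ i j : Fin 5, known (e1 i) (e2 j) = true ∧ e1 i ≠ e2 j := by decide +kernel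
  have c2 : ∀ i j : Fin 5, known (e2 i) (e1 j) = true ∧ e2 i ≠ e1 j := by decide +kernel
  have hsub : B.submatrix e e = Matrix.fromBlocks ((B.submatrix e1 e1).submatrix r r) 0 0
      ((B.submatrix e2 e2).submatrix s s) := by
    ext (i | i) (j | j)
    · rfl
    · exact off _ _ (c1 _ _).1 (c1 _ _).2
    · exact off _ _ (c2 _ _).1 (c2 _ _).2
    · rfl
  have hu : IsUnit (B.submatrix e e) := by
    rw [Matrix.isUnit_iff_isUnit_det, hsub, Matrix.det_fromBlocks_zero₂₁]
    exact (mul_ne_zero hr hs).isUnit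
  have := Matrix.rank_submatrix_le B e e
  rwa [Matrix.rank_of_isUnit _ hu] at this

theorem result (F : Type u) [Field F] :
    ∃ (m n : ℕ) (J : Set (Fin m × Fin n)) (a : Matrix (Fin m) (Fin n) F),
      ¬ (((tmr J a : ℝ) < fmr J a ∧ fmr J a < (mr J a : ℝ)) ∨
        ((tmr J a : ℝ) = fmr J a ∧ fmr J a = (mr J a : ℝ))) := by
  refine ⟨15, 15, J0, 1, ?_⟩
  have h1 : (5 : ℝ) ≤ (tmr J0 (1 : Matrix (Fin 15) (Fin 15) F) : ℝ) := by exact_mod_cast tmr_ge
  have h2 := fmr_le (F := F)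
  have h3 : (6 : ℝ) ≤ (mr J0 (1 : Matrix (Fin 15) (Fin 15) F) : ℝ) := by exact_mod_cast mr_ge6
  rintro (⟨h, -⟩ | ⟨-, h⟩) <;> linarith

end Pool.Agent.Results.MP_f8e91b_al.NoDichotomy
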